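import Pool.Agent.Cov.PNT

/-!
# MP_1efb31_co: colouring the n x n grid with no-three-in-line colour classes

The translates modulo `p` of the parabola `y = x ^ 2` partition the `p x p` grid into `p` sets without
three collinear points.  With the prime number theorem the least number of colours is at most
`(1 + o(1)) n`.
-/

set_option autoImplicit false

open Filter Topology

namespace Pool.Agent.Results.MP_1efb31_co.GridColouring

/-- the point of the plane with the integer coordinates `a.1 + 1`, `a.2 + 1` -/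
def pt {n : ℕ} (a : Fin n × Fin n) : ℝ × ℝ := ((a.1 : ℝ) + 1, (a.2 : ℝ) + 1)

/-- the colouring `f` of the grid `{1, ..., n} ^ 2` is admissible: no three distinct points of the
same colour lie on a line -/
def Admissible {n k : ℕ} (f : Fin n × Fin n → Fin k) : Prop :=
  ∀ a b c : Fin n × Fin n, a ≠ b → a ≠ c → b ≠ c → f a = f b → f b = f c →
    ¬ Collinear ℝ {pt a, pt b, pt c}

/-- the least number of colours in an admissible colouring of the `n x n` grid -/
noncomputable def chi (n : ℕ) : ℕ := sInf {k : ℕ | ∃ f : Fin n × Fin n → Fin k, Admissible f}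

theorem det_of_collinear {x1 y1 x2 y2 x3 y3 : ℝ}
    (h : Collinear ℝ {((x1, y1) : ℝ × ℝ), (x2, y2), (x3, y3)}) :
    (x2 - x1) * (y3 - y1) = (x3 - x1) * (y2 - y1) := by
  obtain ⟨v, hv⟩ := (collinear_iff_of_mem (p₀ := ((x1, y1) : ℝ × ℝ)) (by simp)).1 h
  obtain ⟨r2, h2⟩ := hv (x2, y2) (by simp)
  obtain ⟨r3, h3⟩ := hv (x3, y3) (by simp)
  obtain ⟨v1, v2⟩ := v
  simp only [vadd_eq_add, Prod.smul_mk, smul_eq_mul, Prod.mk_add_mk, Prod.mk.injEq] at h2 h3
  rw [h2.1, h2.2, h3.1, h3.2]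
  ring

/-- the colour of a point: `y - x ^ 2` modulo `p` -/
def col (p : ℕ) [NeZero p] {n : ℕ} (a : Fin n × Fin n) : ZMod p :=
  ((a.2 : ℕ) : ZMod p) - ((a.1 : ℕ) : ZMod p) ^ 2

theorem cast_inj {p n : ℕ} [NeZero p] (hn : n ≤ p) {i j : Fin n}
    (h : ((i : ℕ) : ZMod p) = ((j : ℕ) : ZMod p)) : i = j := by
  have h1 := congrArg ZMod.val h
  rw [ZMod.val_natCast_of_lt (i.2.trans_le hn), ZMod.val_natCast_of_lt (j.2.trans_le hn)] at h1
  exact Fin.ext h1

theorem fst_ne {p n : ℕ} [NeZero p] (hn : n ≤ p) {a b : Fin n × Fin n} (hab : a ≠ b)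
    (h : col p a = col p b) : ((a.1 : ℕ) : ZMod p) ≠ ((b.1 : ℕ) : ZMod p) := by
  intro he
  apply hab
  have h1 := cast_inj hn he
  have h2 : ((a.2 : ℕ) : ZMod p) = ((b.2 : ℕ) : ZMod p) := by
    unfold col at h
    rw [he] at h
    exact sub_left_inj.1 h
  exact Prod.ext h1 (cast_inj hn h2)

theorem no_three {p n : ℕ} [Fact p.Prime] (hn : n ≤ p) {a b c : Fin n × Fin n}
    (hab : a ≠ b) (hac : a ≠ c) (hbc : b ≠ c) (h1 : col p a = col p b) (h2 : col p b = col p c) :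
    ¬ Collinear ℝ {pt a, pt b, pt c} := by
  intro hcol
  have hdet := det_of_collinear hcol
  have hZ : (((b.1 : ℕ) : ℤ) - ((a.1 : ℕ) : ℤ)) * (((c.2 : ℕ) : ℤ) - ((a.2 : ℕ) : ℤ)) =
      (((c.1 : ℕ) : ℤ) - ((a.1 : ℕ) : ℤ)) * (((b.2 : ℕ) : ℤ) - ((a.2 : ℕ) : ℤ)) := by
    have : ((((b.1 : ℕ) : ℤ) - ((a.1 : ℕ) : ℤ)) * (((c.2 : ℕ) : ℤ) - ((a.2 : ℕ) : ℤ)) : ℝ) =
      (((c.1 : ℕ) : ℤ) - ((a.1 : ℕ) : ℤ)) * (((b.2 : ℕ) : ℤ) - ((a.2 : ℕ) : ℤ)) := by
      push_cast
      linarith [hdet]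
    exact_mod_cast this
  have hP : (((b.1 : ℕ) : ZMod p) - ((a.1 : ℕ) : ZMod p)) *
      (((c.2 : ℕ) : ZMod p) - ((a.2 : ℕ) : ZMod p)) =
      (((c.1 : ℕ) : ZMod p) - ((a.1 : ℕ) : ZMod p)) *
      (((b.2 : ℕ) : ZMod p) - ((a.2 : ℕ) : ZMod p)) := by
    have := congrArg (Int.cast : ℤ → ZMod p) hZ
    push_cast at this
    exact this
  have n1 := fst_ne hn hab h1
  have n2 := fst_ne hn hac (h1.trans h2)
  have n3 := fst_ne hn hbc h2
  unfold col at h1 h2
  set x1 := ((a.1 : ℕ) : ZMod p)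
  set x2 := ((b.1 : ℕ) : ZMod p)
  set x3 := ((c.1 : ℕ) : ZMod p)
  set y1 := ((a.2 : ℕ) : ZMod p)
  set y2 := ((b.2 : ℕ) : ZMod p)
  set y3 := ((c.2 : ℕ) : ZMod p)
  have e2 : y2 = y1 - x1 ^ 2 + x2 ^ 2 := by rw [h1]; ring
  have e3 : y3 = y1 - x1 ^ 2 + x3 ^ 2 := by rw [h1, h2]; ring
  have hprod : (x2 - x1) * (x3 - x1) * (x3 - x2) = 0 := by
    rw [e2, e3] at hP
    linear_combination hP
  rcases mul_eq_zero.1 hprod with h | h
  · rcases mul_eq_zero.1 h with h | h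
    · exact n1 (sub_eq_zero.1 h).symm
    · exact n2 (sub_eq_zero.1 h).symm
  · exact n3 (sub_eq_zero.1 h).symm

/-- `p` colours suffice for every prime `p ≥ n` -/
theorem exists_col {p n : ℕ} (hp : p.Prime) (hn : n ≤ p) :
    ∃ f : Fin n × Fin n → Fin p, Admissible f := by
  have : Fact p.Prime := ⟨hp⟩
  refine ⟨fun a => (ZMod.finEquiv p).symm (col p a), ?_⟩
  intro a b c hab hac hbc h1 h2
  exact no_three hn hab hac hbc ((ZMod.finEquiv p).symm.injective h1)
    ((ZMod.finEquiv p).symm.injective h2)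

/-- at most `p` colours for every prime `p ≥ n` -/
theorem chi_le_prime {p n : ℕ} (hp : p.Prime) (hn : n ≤ p) : chi n ≤ p :=
  Nat.sInf_le (exists_col hp hn)

/-- There is a prime in `(x, (1+η) x]` for large `x`. -/
theorem prime_short {η : ℝ} (hη : 0 < η) :
    ∀ᶠ x : ℝ in atTop, ∃ p : ℕ, p.Prime ∧ x < (p : ℝ) ∧ (p : ℝ) ≤ (1 + η) * x := by
  have h1 := Pool.Agent.Cov.PNT.theta_div_tendsto
  have h2 : Tendsto (fun x : ℝ => Chebyshev.theta ((1 + η) * x) / ((1 + η) * x)) atTop (𝓝 1) :=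
    h1.comp (tendsto_id.const_mul_atTop (by positivity))
  have h3 : Tendsto (fun x : ℝ => (1 + η) * (Chebyshev.theta ((1 + η) * x) / ((1 + η) * x)) -
      Chebyshev.theta x / x) atTop (𝓝 ((1 + η) * 1 - 1)) := (h2.const_mul _).sub h1
  have h4 : ∀ᶠ x : ℝ in atTop, 0 < (1 + η) * (Chebyshev.theta ((1 + η) * x) / ((1 + η) * x)) -
      Chebyshev.theta x / x := h3.eventually (lt_mem_nhds (by linarith))
  filter_upwards [h4, eventually_gt_atTop 0] with x hx hx0
  by_contra hcon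
  push Not at hcon
  have h5 : Chebyshev.theta ((1 + η) * x) ≤ Chebyshev.theta x := by
    unfold Chebyshev.theta
    apply Finset.sum_le_sum_of_subset_of_nonneg
    · intro p hp
      rw [Finset.mem_filter, Finset.mem_Ioc] at hp ⊢
      refine ⟨⟨hp.1.1, ?_⟩, hp.2⟩
      rw [Nat.le_floor_iff hx0.le]
      by_contra hlt
      have h6 := hcon p hp.2 (not_le.1 hlt)
      have h7 := (Nat.le_floor_iff (by positivity)).1 hp.1.2
      linarith
    · intro p hp _
      rw [Finset.mem_filter, Finset.mem_Ioc] at hp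
      exact Real.log_nonneg (by exact_mod_cast hp.1.1)
  have h8 : (1 + η) * (Chebyshev.theta ((1 + η) * x) / ((1 + η) * x)) =
      Chebyshev.theta ((1 + η) * x) / x := by
    field_simp
  rw [h8, ← sub_div] at hx
  have h9 : 0 < Chebyshev.theta ((1 + η) * x) - Chebyshev.theta x := by
    by_contra hle
    have := div_nonpos_of_nonpos_of_nonneg (not_lt.1 hle) hx0.le
    linarith
  linarith

theorem eventually_le {ε : ℝ} (hε : 0 < ε) : ∀ᶠ n : ℕ in atTop, (chi n : ℝ) ≤ (1 + ε) * n := by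
  have h := tendsto_natCast_atTop_atTop.eventually (prime_short hε)
  filter_upwards [h] with n hn
  obtain ⟨p, hp, h1, h2⟩ := hn
  have h3 : n ≤ p := by exact_mod_cast h1.le
  have h4 : (chi n : ℝ) ≤ p := by exact_mod_cast chi_le_prime hp h3
  exact h4.trans h2

theorem result :
    (∀ p n : ℕ, p.Prime → n ≤ p → ∃ f : Fin n × Fin n → Fin p, Admissible f) ∧
    (∀ ε : ℝ, 0 < ε → ∀ᶠ n : ℕ in atTop, ∃ k : ℕ, (k : ℝ) ≤ (1 + ε) * n ∧
      ∃ f : Fin n × Fin n → Fin k, Admissible f) ∧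
    limsup (fun n : ℕ => (chi n : ℝ) / n) atTop ≤ 1 := by
  refine ⟨fun p n hp hn => exists_col hp hn, ?_, ?_⟩
  · intro ε hε
    have h := tendsto_natCast_atTop_atTop.eventually (prime_short hε)
    filter_upwards [h] with n hn
    obtain ⟨p, hp, h1, h2⟩ := hn
    exact ⟨p, h2, exists_col hp (by exact_mod_cast h1.le)⟩
  · refine le_of_forall_pos_le_add fun ε hε => ?_
    refine limsup_le_of_le ?_ ?_
    · exact (isBoundedUnder_of ⟨0, fun n => by positivity⟩).isCoboundedUnder_le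
    · filter_upwards [eventually_le hε, eventually_gt_atTop 0] with n hn h0
      rw [div_le_iff₀ (by exact_mod_cast h0)]
      exact hn

end Pool.Agent.Results.MP_1efb31_co.GridColouring
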